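import Pool.Agent.GR11.Uniform73

/-!
# Q1 of MP_92bcb5_co holds for all `k ≤ K` with few exceptions, uniformly in the girth
-/

namespace Pool.Agent.Results.MP_92bcb5_co.UniformExceptions

/-- `n_g(k)`: the minimum number of vertices of a `k`-chromatic graph of girth at least `g` -/
noncomputable def leastOrder (g k : ℕ) : ℕ :=
  sInf {n : ℕ | ∃ G : SimpleGraph (Fin n), G.chromaticNumber = (k : ℕ∞) ∧ (g : ℕ∞) ≤ G.egirth}

/-- For all `g ≥ 3` and `k ≥ 2` the minimum `n_g(k)` is attained. For all `g ≥ 3`, real `c > 1` and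
`K ≥ 2` the inequality `n_g(k + 1) ≤ c n_g(k)` fails for at most `6 g log (g K) / log c` values of
`k` in `[2, K]`. For all `G ≥ 3`, real `c > 1` and `K ≥ 2` the inequalities
`n_g(k + 1) ≤ c n_g(k)`, `3 ≤ g ≤ G`, hold together for all `k` in `[2, K]` with at most
`6 G ^ 2 log (G K) / log c` exceptions. -/
theorem result :
    (∀ g : ℕ, 3 ≤ g → ∀ k : ℕ, 2 ≤ k → ∃ G : SimpleGraph (Fin (leastOrder g k)),
      G.chromaticNumber = (k : ℕ∞) ∧ (g : ℕ∞) ≤ G.egirth) ∧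
    (∀ g : ℕ, 3 ≤ g → ∀ c : ℝ, 1 < c → ∀ K : ℕ, 2 ≤ K →
      (((Finset.Icc 2 K).filter
        (fun k => c * (leastOrder g k : ℝ) < leastOrder g (k + 1))).card : ℝ) ≤
        6 * g * Real.log (g * K) / Real.log c) ∧
    (∀ G : ℕ, 3 ≤ G → ∀ c : ℝ, 1 < c → ∀ K : ℕ, 2 ≤ K →
      ({k : ℕ | 2 ≤ k ∧ k ≤ K ∧ ∃ g : ℕ, 3 ≤ g ∧ g ≤ G ∧
        c * (leastOrder g k : ℝ) < leastOrder g (k + 1)}.ncard : ℝ) ≤
        6 * (G : ℝ) ^ 2 * Real.log (G * K) / Real.log c) :=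
  ⟨Pool.Agent.GR11.attained, Pool.Agent.GR11.U73.one, Pool.Agent.GR11.U73.all⟩

end Pool.Agent.Results.MP_92bcb5_co.UniformExceptions
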